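import Pool.Agent.W533.K.Defs

/-!
# UK-WEIGHT (helper636): variation of the weights
-/

set_option autoImplicit false

namespace Pool.Agent.W636.UK

open Finset Pool.Agent.W533.K

/-- lattice norms -/
structure LN {ι : Type} [Fintype ι] (f : (ι → ℝ) → ℝ) : Prop where
  add : ∀ u v, f (u + v) ≤ f u + f v
  smul : ∀ (a : ℝ) u, f (a • u) = |a| * f u
  mono : ∀ u w : ι → ℝ, (∀ i, |u i| ≤ w i) → f u ≤ f w
  const : f (fun _ => 1 / (2 * Fintype.card ι)) ≤ 1 / 2
  le : ∀ u i, |u i| ≤ f u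

section

variable {ι : Type} [Fintype ι]

theorem LN.neg {f : (ι → ℝ) → ℝ} (hf : LN f) (u : ι → ℝ) : f (-u) = f u := by
  have := hf.smul (-1) u
  rw [neg_one_smul, abs_neg, abs_one, one_mul] at this
  exact this

theorem LN.normalize {f : (ι → ℝ) → ℝ} (hf : LN f) (v v' : ι → ℝ) (hv : 0 < f v)
    (hv' : 0 < f v') : f ((1 / f v) • v - (1 / f v') • v') ≤ 2 * f (v - v') / f v := by
  have e : (1 / f v) • v - (1 / f v') • v' = (1 / f v) • (v - v') + (1 / f v - 1 / f v') • v' := by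
    rw [smul_sub, sub_smul]; abel
  rw [e]
  refine (hf.add _ _).trans ?_
  rw [hf.smul, hf.smul]
  have h1 : |1 / f v| = 1 / f v := abs_of_pos (by positivity)
  have h2 : |1 / f v - 1 / f v'| * f v' = |f v' - f v| / f v := by
    have : 1 / f v - 1 / f v' = (f v' - f v) / (f v * f v') := by
      field_simp
    rw [this, abs_div, abs_of_pos (by positivity : 0 < f v * f v')]
    field_simp
  have h3 : |f v' - f v| ≤ f (v - v') := by
    rw [abs_le]
    constructor
    · have := hf.add (v - v') v'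
      rw [sub_add_cancel] at this
      linarith
    · have := hf.add (v' - v) v
      rw [sub_add_cancel] at this
      have h4 : f (v' - v) = f (v - v') := by
        rw [← hf.neg, neg_sub]
      linarith
  rw [h1, h2]
  have h5 : |f v' - f v| / f v ≤ f (v - v') / f v := by gcongr
  calc 1 / f v * f (v - v') + |f v' - f v| / f v ≤ 1 / f v * f (v - v') + f (v - v') / f v := by
        linarith
    _ = _ := by ring

theorem tw_nonneg (Lm ε t : ℝ) : 0 ≤ tw Lm ε t := le_max_right _ _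

theorem exp_le_tw (Lm ε t : ℝ) : Real.exp (-(Lm * t)) ≤ tw Lm ε t + Real.exp (-(Lm * ε)) := by
  have := le_max_left (Real.exp (-(Lm * t)) - Real.exp (-(Lm * ε))) 0
  unfold tw
  linarith

/-- difference of two values of the exponential -/
theorem exp_diff (Lm t t' : ℝ) :
    Real.exp (-(Lm * t)) - Real.exp (-(Lm * t')) ≤ Lm * (t' - t) * Real.exp (-(Lm * t)) := by
  have h1 : Real.exp (-(Lm * t')) = Real.exp (-(Lm * t)) * Real.exp (-(Lm * (t' - t))) := by
    rw [← Real.exp_add]; congr 1; ring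
  have h2 : 1 - Lm * (t' - t) ≤ Real.exp (-(Lm * (t' - t))) := by
    have := Real.add_one_le_exp (-(Lm * (t' - t)))
    linarith
  have h3 := Real.exp_pos (-(Lm * t))
  rw [h1]
  nlinarith

theorem tw_diff1 (Lm ε t t' : ℝ) (hL : 0 ≤ Lm) (h : t ≤ t') :
    |tw Lm ε t - tw Lm ε t'| ≤ Lm * (t' - t) * (tw Lm ε t + Real.exp (-(Lm * ε))) := by
  have h1 := exp_diff Lm t t'
  have h2 := exp_le_tw Lm ε t
  have h3 : Real.exp (-(Lm * t')) ≤ Real.exp (-(Lm * t)) :=
    Real.exp_le_exp.mpr (by nlinarith)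
  have h4 : 0 ≤ Lm * (t' - t) := mul_nonneg hL (by linarith)
  have h5 : |tw Lm ε t - tw Lm ε t'| ≤ Real.exp (-(Lm * t)) - Real.exp (-(Lm * t')) := by
    unfold tw
    refine (abs_max_sub_max_le_abs _ _ _).trans ?_
    rw [abs_of_nonneg (by linarith)]
    linarith
  calc _ ≤ _ := h5
    _ ≤ _ := h1
    _ ≤ _ := mul_le_mul_of_nonneg_left h2 h4

theorem tw_zero_of (Lm ε t : ℝ) (hL : 0 ≤ Lm) (h : ε ≤ t) : tw Lm ε t = 0 := by
  unfold tw
  rw [max_eq_right]
  have : Real.exp (-(Lm * t)) ≤ Real.exp (-(Lm * ε)) := Real.exp_le_exp.mpr (by nlinarith)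
  linarith

theorem tw_diff (Lm ε t t' d : ℝ) (hL : 0 ≤ Lm)
    (hd : t < ε → |t - t'| ≤ d) (hd' : t' < ε → |t - t'| ≤ d) (hd0 : 0 ≤ d) :
    |tw Lm ε t - tw Lm ε t'| ≤ Lm * d * (tw Lm ε t + tw Lm ε t' + Real.exp (-(Lm * ε))) := by
  have n1 := tw_nonneg Lm ε t
  have n2 := tw_nonneg Lm ε t'
  have n3 := Real.exp_pos (-(Lm * ε))
  by_cases h : t < ε ∨ t' < ε
  · have hdd : |t - t'| ≤ d := by
      rcases h with h | h
      · exact hd h
      · exact hd' h
    have hLd : 0 ≤ Lm * d := mul_nonneg hL hd0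
    rcases le_total t t' with h1 | h1
    · have h2 := tw_diff1 Lm ε t t' hL h1
      have h3 : t' - t ≤ d := by
        rw [abs_sub_comm] at hdd
        exact (le_abs_self _).trans hdd
      calc _ ≤ Lm * (t' - t) * (tw Lm ε t + Real.exp (-(Lm * ε))) := h2
        _ ≤ Lm * d * (tw Lm ε t + Real.exp (-(Lm * ε))) := by gcongr
        _ ≤ _ := by
          refine mul_le_mul_of_nonneg_left ?_ hLd
          linarith
    · have h2 := tw_diff1 Lm ε t' t hL h1
      rw [abs_sub_comm]
      have h3 : t - t' ≤ d := (le_abs_self _).trans hdd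
      calc _ ≤ Lm * (t - t') * (tw Lm ε t' + Real.exp (-(Lm * ε))) := h2
        _ ≤ Lm * d * (tw Lm ε t' + Real.exp (-(Lm * ε))) := by gcongr
        _ ≤ _ := by
          refine mul_le_mul_of_nonneg_left ?_ hLd
          linarith
  · push Not at h
    rw [tw_zero_of Lm ε t hL h.1, tw_zero_of Lm ε t' hL h.2]
    simp only [sub_zero, abs_zero]
    positivity

theorem t_diff (p q r s δ : ℝ) (hr : 0 < r) (hδ : δ ≤ r / 4) (hrs : |r - s| ≤ δ)
    (hpq : |p - q| ≤ δ) (hp : 0 ≤ p) (hq : 0 ≤ q) :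
    (p / r < 1 / 4 → |p / r - q / s| ≤ 5 / 3 * (δ / r)) ∧
    (q / s < 1 / 4 → |p / r - q / s| ≤ 5 / 3 * (δ / r)) := by
  have hδ0 : 0 ≤ δ := (abs_nonneg _).trans hrs
  have hs : 3 / 4 * r ≤ s := by
    have := (le_abs_self _).trans hrs
    linarith
  have hs0 : 0 < s := by linarith
  have hsr : |s - r| ≤ δ := by rw [abs_sub_comm]; exact hrs
  have hδs : δ / s ≤ 4 / 3 * (δ / r) := by
    rw [div_le_iff₀ hs0]
    have : 4 / 3 * (δ / r) * s = δ / r * (4 / 3 * s) := by ring
    rw [this]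
    calc δ = δ / r * r := by field_simp
      _ ≤ δ / r * (4 / 3 * s) := by gcongr; linarith
  have hδr : 0 ≤ δ / r := by positivity
  constructor
  · intro h
    have e : p / r - q / s = (p - q) / s + (p / r) * ((s - r) / s) := by
      field_simp
      ring
    rw [e]
    have hpr : 0 ≤ p / r := by positivity
    calc |(p - q) / s + (p / r) * ((s - r) / s)| ≤ |(p - q) / s| + |(p / r) * ((s - r) / s)| :=
          abs_add_le _ _
      _ = |p - q| / s + (p / r) * (|s - r| / s) := by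
          rw [abs_mul, abs_of_nonneg hpr, abs_div, abs_div, abs_of_pos hs0]
      _ ≤ δ / s + 1 / 4 * (δ / s) := by gcongr
      _ ≤ 5 / 3 * (δ / r) := by linarith
  · intro h
    have e : p / r - q / s = (p - q) / r + (q / s) * ((s - r) / r) := by
      field_simp
      ring
    rw [e]
    have hqs : 0 ≤ q / s := by positivity
    calc |(p - q) / r + (q / s) * ((s - r) / r)| ≤ |(p - q) / r| + |(q / s) * ((s - r) / r)| :=
          abs_add_le _ _
      _ = |p - q| / r + (q / s) * (|s - r| / r) := by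
          rw [abs_mul, abs_of_nonneg hqs, abs_div, abs_div, abs_of_pos hr]
      _ ≤ δ / r + 1 / 4 * (δ / r) := by gcongr
      _ ≤ 5 / 3 * (δ / r) := by linarith

theorem main_ln {f : (ι → ℝ) → ℝ} (hf : LN f) (p q : ι → ℝ) (r s δ ε : ℝ)
    (hε : 0 < ε) (hε' : ε ≤ 1 / 4) (hr : 0 < r) (hδ : δ ≤ r / 4) (hrs : |r - s| ≤ δ)
    (hpq : ∀ i, |p i - q i| ≤ δ) (hp : ∀ i, 0 ≤ p i) (hq : ∀ i, 0 ≤ q i)
    (hp0 : ∃ i, p i = 0) (hq0 : ∃ i, q i = 0) :
    f (fun i =>
      tw (Real.log (2 * Fintype.card ι) / ε) ε (p i / r) /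
        f (fun j => tw (Real.log (2 * Fintype.card ι) / ε) ε (p j / r)) -
      tw (Real.log (2 * Fintype.card ι) / ε) ε (q i / s) /
        f (fun j => tw (Real.log (2 * Fintype.card ι) / ε) ε (q j / s)))
      ≤ 10 * (Real.log (2 * Fintype.card ι) / ε) * δ / r := by
  obtain ⟨i0, hi0⟩ := hp0
  obtain ⟨j0, hj0⟩ := hq0
  have hk : 1 ≤ (Fintype.card ι : ℝ) := by
    have : 0 < Fintype.card ι := Fintype.card_pos_iff.mpr ⟨i0⟩
    exact_mod_cast this
  set Lm := Real.log (2 * Fintype.card ι) / ε with hLm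
  have hL : 0 ≤ Lm := div_nonneg (Real.log_nonneg (by linarith)) hε.le
  have hδ0 : 0 ≤ δ := (abs_nonneg _).trans hrs
  have hexp : Real.exp (-(Lm * ε)) = 1 / (2 * Fintype.card ι) := by
    rw [hLm, div_mul_cancel₀ _ hε.ne', Real.exp_neg, Real.exp_log (by linarith), one_div]
  have hhalf : (1 : ℝ) / (2 * Fintype.card ι) ≤ 1 / 2 := by
    rw [div_le_div_iff₀ (by linarith) (by norm_num)]
    linarith
  have htw0 : 1 / 2 ≤ tw Lm ε 0 := by
    have h := le_max_left (Real.exp (-(Lm * 0)) - Real.exp (-(Lm * ε))) 0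
    rw [hexp, mul_zero, neg_zero, Real.exp_zero] at h
    unfold tw
    rw [hexp, mul_zero, neg_zero, Real.exp_zero]
    linarith
  set v : ι → ℝ := fun j => tw Lm ε (p j / r) with hv
  set v' : ι → ℝ := fun j => tw Lm ε (q j / s) with hv'
  have hfv : 1 / 2 ≤ f v := by
    have h1 := hf.le v i0
    have h2 : v i0 = tw Lm ε 0 := by rw [hv]; simp [hi0]
    rw [h2, abs_of_nonneg (tw_nonneg _ _ _)] at h1
    linarith
  have hfv' : 1 / 2 ≤ f v' := by
    have h1 := hf.le v' j0
    have h2 : v' j0 = tw Lm ε 0 := by rw [hv']; simp [hj0]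
    rw [h2, abs_of_nonneg (tw_nonneg _ _ _)] at h1
    linarith
  have hfv0 : 0 < f v := by linarith
  have hfv0' : 0 < f v' := by linarith
  -- the pointwise bound
  set c := Lm * (5 / 3 * (δ / r)) with hc
  have hc0 : 0 ≤ c := by positivity
  have hpt : ∀ i, |(v - v') i| ≤ (c • (v + v' + fun _ => 1 / (2 * (Fintype.card ι : ℝ))) : ι → ℝ) i := by
    intro i
    have h1 := t_diff (p i) (q i) r s δ hr hδ hrs (hpq i) (hp i) (hq i)
    have h2 := tw_diff Lm ε (p i / r) (q i / s) (5 / 3 * (δ / r)) hL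
      (fun h => h1.1 (by linarith)) (fun h => h1.2 (by linarith)) (by positivity)
    rw [hexp] at h2
    simpa [hv, hv', hc] using h2
  have hdiff : f (v - v') ≤ c * (f v + f v' + 1 / 2) := by
    refine (hf.mono _ _ hpt).trans ?_
    rw [hf.smul, abs_of_nonneg hc0]
    refine mul_le_mul_of_nonneg_left ?_ hc0
    refine (hf.add _ _).trans ?_
    have := hf.add v v'
    have := hf.const
    linarith
  have hfinal : ∀ V : ℝ, 0 < V → f v ≤ V → f v' ≤ V → 1 / 2 ≤ V →
      2 * f (v - v') / V ≤ 10 * Lm * δ / r := by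
    intro V hV h1 h2 h3
    have h4 : f (v - v') ≤ c * (3 * V) :=
      hdiff.trans (mul_le_mul_of_nonneg_left (by linarith) hc0)
    calc 2 * f (v - v') / V ≤ 2 * (c * (3 * V)) / V := by gcongr
      _ = 10 * Lm * δ / r := by
        rw [hc]; field_simp; ring
  have e1 : (fun i => v i / f v - v' i / f v') = (1 / f v) • v - (1 / f v') • v' := by
    funext i
    simp only [Pi.sub_apply, Pi.smul_apply, smul_eq_mul]
    ring
  rw [e1]
  rcases le_total (f v') (f v) with h | h
  · exact (hf.normalize v v' hfv0 hfv0').trans (hfinal (f v) hfv0 le_rfl h hfv)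
  · have h1 := hf.normalize v' v hfv0' hfv0
    have h2 : f ((1 / f v) • v - (1 / f v') • v') = f ((1 / f v') • v' - (1 / f v) • v) := by
      rw [← hf.neg, neg_sub]
    have h3 : f (v' - v) = f (v - v') := by rw [← hf.neg, neg_sub]
    rw [h2]
    rw [h3] at h1
    exact h1.trans (hfinal (f v') hfv0' h le_rfl hfv')

/-- the `ℓ₁` norm -/
theorem ln1 : LN (fun u : ι → ℝ => ∑ i, |u i|) where
  add := fun u v => by
    rw [← Finset.sum_add_distrib]
    exact Finset.sum_le_sum (fun i _ => abs_add_le _ _)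
  smul := fun a u => by
    rw [Finset.mul_sum]
    exact Finset.sum_congr rfl (fun i _ => by rw [Pi.smul_apply, smul_eq_mul, abs_mul])
  mono := fun u w h => Finset.sum_le_sum (fun i _ => (h i).trans (le_abs_self _))
  const := by
    rw [Finset.sum_const, Finset.card_univ, nsmul_eq_mul]
    rcases Nat.eq_zero_or_pos (Fintype.card ι) with h | h
    · rw [h]; norm_num
    · have h' : (0 : ℝ) < Fintype.card ι := by exact_mod_cast h
      rw [abs_of_pos (by positivity)]
      refine le_of_eq ?_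
      field_simp
  le := fun u i => Finset.single_le_sum (f := fun i => |u i|) (fun i _ => abs_nonneg _)
    (Finset.mem_univ i)

theorem l2_eq (u : ι → ℝ) : √(∑ i, u i ^ 2) = ‖(WithLp.toLp 2 u : EuclideanSpace ℝ ι)‖ := by
  rw [EuclideanSpace.norm_eq]
  congr 1
  refine Finset.sum_congr rfl (fun i _ => ?_)
  rw [Real.norm_eq_abs, sq_abs]

/-- the `ℓ₂` norm -/
theorem ln2 : LN (fun u : ι → ℝ => √(∑ i, u i ^ 2)) where
  add := fun u v => by
    rw [l2_eq, l2_eq, l2_eq]
    exact norm_add_le (WithLp.toLp 2 u : EuclideanSpace ℝ ι) (WithLp.toLp 2 v)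
  smul := fun a u => by
    rw [l2_eq, l2_eq]
    exact norm_smul a (WithLp.toLp 2 u : EuclideanSpace ℝ ι)
  mono := fun u w h => by
    refine Real.sqrt_le_sqrt (Finset.sum_le_sum (fun i _ => ?_))
    rw [← sq_abs]
    exact pow_le_pow_left₀ (abs_nonneg _) (h i) 2
  const := by
    rw [Finset.sum_const, Finset.card_univ, nsmul_eq_mul]
    rw [Real.sqrt_le_left (by norm_num)]
    rcases Nat.eq_zero_or_pos (Fintype.card ι) with h | h
    · rw [h]; norm_num
    · have h' : (1 : ℝ) ≤ Fintype.card ι := by exact_mod_cast h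
      rw [div_pow, one_pow, mul_one_div, div_le_iff₀ (by positivity)]
      nlinarith
  le := fun u i => by
    refine Real.le_sqrt_of_sq_le ?_
    rw [sq_abs]
    exact Finset.single_le_sum (f := fun i => u i ^ 2) (fun i _ => sq_nonneg _)
      (Finset.mem_univ i)

end

theorem weight1 : Weight1 := by
  intro ι _ p q r s δ ε hε hε' hr hδ hrs hpq hp hq hp0 hq0
  have hδ0 : 0 ≤ δ := (abs_nonneg _).trans hrs
  have h := main_ln (ln1 (ι := ι)) p q r s δ ε hε hε' hr hδ hrs hpq hp hq hp0 hq0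
  have hk : 1 ≤ (Fintype.card ι : ℝ) := by
    obtain ⟨i0, -⟩ := hp0
    have : 0 < Fintype.card ι := Fintype.card_pos_iff.mpr ⟨i0⟩
    exact_mod_cast this
  have hL : 0 ≤ Real.log (2 * Fintype.card ι) / ε :=
    div_nonneg (Real.log_nonneg (by linarith)) hε.le
  have h1 : ∀ (a : ι → ℝ), ∑ j, |tw (Real.log (2 * Fintype.card ι) / ε) ε (a j)| =
      ∑ j, tw (Real.log (2 * Fintype.card ι) / ε) ε (a j) := fun a =>
    Finset.sum_congr rfl (fun j _ => abs_of_nonneg (tw_nonneg _ _ _))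
  simp only [h1] at h
  unfold w1
  refine h.trans ?_
  have : 0 ≤ (Real.log (2 * Fintype.card ι) / ε) * δ / r := by positivity
  have e1 : 10 * (Real.log (2 * Fintype.card ι) / ε) * δ / r =
    10 * ((Real.log (2 * Fintype.card ι) / ε) * δ / r) := by ring
  have e2 : 14 * (Real.log (2 * Fintype.card ι) / ε) * δ / r =
    14 * ((Real.log (2 * Fintype.card ι) / ε) * δ / r) := by ring
  rw [e1, e2]
  linarith

theorem weight2 : Weight2 := by
  intro ι _ p q r s δ ε hε hε' hr hδ hrs hpq hp hq hp0 hq0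
  have hδ0 : 0 ≤ δ := (abs_nonneg _).trans hrs
  have h := main_ln (ln2 (ι := ι)) p q r s δ ε hε hε' hr hδ hrs hpq hp hq hp0 hq0
  have hk : 1 ≤ (Fintype.card ι : ℝ) := by
    obtain ⟨i0, -⟩ := hp0
    have : 0 < Fintype.card ι := Fintype.card_pos_iff.mpr ⟨i0⟩
    exact_mod_cast this
  have hL : 0 ≤ Real.log (2 * Fintype.card ι) / ε :=
    div_nonneg (Real.log_nonneg (by linarith)) hε.le
  unfold w2
  have h0 : 0 ≤ (Real.log (2 * Fintype.card ι) / ε) * δ / r := by positivity
  have e1 : 10 * (Real.log (2 * Fintype.card ι) / ε) * δ / r =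
    10 * ((Real.log (2 * Fintype.card ι) / ε) * δ / r) := by ring
  have e2 : 14 * (Real.log (2 * Fintype.card ι) / ε) * δ / r =
    14 * ((Real.log (2 * Fintype.card ι) / ε) * δ / r) := by ring
  rw [e1] at h
  rw [e2]
  simp only at h
  have h2 := (Real.sqrt_le_left (by positivity)).mp h
  refine h2.trans ?_
  exact pow_le_pow_left₀ (by positivity) (by linarith) 2

end Pool.Agent.W636.UK
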